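import Pool.Agent.U559.CQ.Main
import Pool.Agent.U559.CP.Hilb

/-!
# Banach-Mazur rotation problem: the isometry group in the Calkin algebra

Theorem.  Let `E` be a separable infinite-dimensional real Banach space with transitive norm, and suppose that
`E` is not a Hilbert space.  Then there is `c > 0` such that
`c ‖S - T‖ ≤ ‖S - T - K‖` for all isometries `S`, `T` of `E` and all strictly singular (for instance
compact) operators `K`.  So the isometry group of `E`, with the distance given by the operator norm, embeds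
bi-Lipschitz in the Calkin algebra of `E` and even in the algebra of all bounded operators modulo the strictly
singular ones.  In a Hilbert space this is false, already for `T = 1` and reflections `S`.

If the norm is only almost transitive, and `E` of any density, then the same inequality is true for
`‖S - T‖ ≤ c`.

For `S - T` of finite rank (then `K = S - T` is excluded) this is a theorem of Cabello Sánchez.  The starting
result `NormSeparableGroups` assumes that the isometries `T` with `T - 1` compact act transitively, and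
`CompactDichotomy` assumes that `E` is nearly Hilbertian.

Proof outline (files `Pool/Agent/U559/CP/*` and `Pool/Agent/U559/CQ/*`).  Suppose that for every `ε > 0` there
are `S ≠ T` and a strictly singular `K` with `‖S - T - K‖ < ε ‖S - T‖`.

1. `CQ/Main`: taking powers of `T⁻¹ S` one finds isometries `T n` and strictly singular operators `K n` with
   `‖T n - 1‖ ≥ 1 / 8` and `‖T n - 1 - K n‖ → 0`.  By the smooth functional calculus of isometries (starting
   files `W687/RotCalc`, `W687/RotSpec`) one can take for `K n` compact operators (`nc_of_ss`).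
2. `CQ/Core`: let `X` be the ultrapower of `E` (teammate file `U234/KM/Ultra`), its norm is transitive; and
   suppose that there is a skew operator `B` on `X`, `‖1 + t B‖ ≤ 1 + o (t)`, which is not in the finite-dimensional
   division algebra `DD` of the operators on `X` whose conjugates by isometries span a finite-dimensional
   space.  The part of `X` on which `T n` has spectrum away from `1` is finite dimensional (for large `n`).  If the
   part `D` of a conjugate of `B` with spectrum away from `0` for the commutator with `T n` is not zero, it is a skew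
   operator of finite rank, its exponentials are isometries, and by the finite-rank case (`CP/Form`) `E` is a
   Hilbert space.  Otherwise all conjugates of `B` map a nonzero vector into a finite-dimensional space, so `B`
   is in `DD` (starting files `TH596/RO/*`).
3. `CQ/Dich`: otherwise all limits of `(g n - 1) / t n` with isometries `g n`, `‖g n - 1‖ ≤ t n → 0`, are
   in `DD` on `X`, which is of dimension at most `4`.  A packing argument at all scales shows that the set of the
   isometries `g` of `E` with `‖g - 1‖ ≤ r` is totally bounded for the operator norm, for some `r > 0`.  So the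
   conjugates of `g` form a totally bounded set, and `g` is in the division algebra `DD` of `E`.
4. `CQ/Cent`: by an explicit Skolem-Noether argument one can correct `T n` by an isometry in `DD` such that
   it commutes with `DD`.
5. `CQ/Disc2`: for isometries `g`, `h` which are close to `1` on a finite set, the commutator `c` of
   `a = g T n g⁻¹ (T n)⁻¹` and `b = h T n h⁻¹ (T n)⁻¹` is close to `1`, so in `DD` by 3, and commutes with `a`.  So
   `c ^ k` is the commutator of `a ^ k` and `b`, which is close to a compact perturbation of `1`, uniformly in `k`;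
   as elements of `DD` are multiples of isometries, `c ^ k` is close to `1` for all `k`, and `c = 1`.  By the theorem on
   small conjugation orbits (starting files `TH596/RO/*`, here separability and transitivity are used) `a`
   is in `DD`, and then `T n` is in `DD`.  This is a contradiction to `‖T n - 1‖ ≥ 1 / 8`.
-/

set_option autoImplicit false

namespace Pool.Agent.Results.MP_cc72b1_an.CalkinEmbedding

/-- `E` is linearly isometric to a Hilbert space -/
def IsHilbert (E : Type) [NormedAddCommGroup E] [NormedSpace ℝ E] : Prop :=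
  ∃ (H : Type) (_ : NormedAddCommGroup H) (_ : InnerProductSpace ℝ H) (_ : CompleteSpace H),
    Nonempty (E ≃ₗᵢ[ℝ] H)

/-- the isometry group of `E` is transitive on the unit sphere -/
def IsTransitive (E : Type) [NormedAddCommGroup E] [NormedSpace ℝ E] : Prop :=
  ∀ x y : E, ‖x‖ = 1 → ‖y‖ = 1 → ∃ T : E ≃ₗᵢ[ℝ] E, T x = y

/-- the isometry group of `E` has dense orbits on the unit sphere -/
def IsAlmostTransitive (E : Type) [NormedAddCommGroup E] [NormedSpace ℝ E] : Prop :=
  ∀ x y : E, ‖x‖ = 1 → ‖y‖ = 1 → ∀ ε : ℝ, 0 < ε → ∃ T : E ≃ₗᵢ[ℝ] E, ‖T x - y‖ < ε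

/-- `K` is strictly singular: not bounded below on any infinite-dimensional subspace -/
def StrictlySingular {E : Type} [NormedAddCommGroup E] [NormedSpace ℝ E] (K : E →L[ℝ] E) : Prop :=
  ∀ W : Submodule ℝ E, ¬ FiniteDimensional ℝ W → ∀ ε : ℝ, 0 < ε → ∃ x ∈ W, ‖x‖ = 1 ∧ ‖K x‖ < ε

/-- a surjective linear isometry as a bounded operator -/
noncomputable def toOp {E : Type} [NormedAddCommGroup E] [NormedSpace ℝ E] (T : E ≃ₗᵢ[ℝ] E) :
    E →L[ℝ] E := (T.toContinuousLinearEquiv : E →L[ℝ] E)

lemma isHilbert_of {E : Type} [NormedAddCommGroup E] [NormedSpace ℝ E] [CompleteSpace E]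
    (h : ∀ x y : E, ‖x + y‖ ^ 2 + ‖x - y‖ ^ 2 = 2 * ‖x‖ ^ 2 + 2 * ‖y‖ ^ 2) : IsHilbert E := by
  have key : ∀ x y : E,
      ‖x + y‖ * ‖x + y‖ + ‖x - y‖ * ‖x - y‖ = 2 * (‖x‖ * ‖x‖ + ‖y‖ * ‖y‖) := by
    intro x y
    nlinarith [h x y]
  exact ⟨E, inferInstance, InnerProductSpace.ofNorm ℝ key, inferInstance,
    ⟨LinearIsometryEquiv.refl ℝ E⟩⟩

/-- the quotient of the two isometries -/
lemma quot {E : Type} [NormedAddCommGroup E] [NormedSpace ℝ E] {S T : E ≃ₗᵢ[ℝ] E}
    {K : E →L[ℝ] E} {c : ℝ} (hK : StrictlySingular K)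
    (h : ‖toOp S - toOp T - K‖ < c * ‖toOp S - toOp T‖) :
    T⁻¹ * S ≠ 1 ∧ ‖Pool.H590R3.Ab.op (T⁻¹ * S) - 1‖ = ‖toOp S - toOp T‖ ∧
    Pool.Agent.U559.CP.SSg (fun y : E => T⁻¹ (K y)) ∧
    ∀ y, ‖(T⁻¹ * S) y - y - T⁻¹ (K y)‖ ≤ c * ‖Pool.H590R3.Ab.op (T⁻¹ * S) - 1‖ * ‖y‖ := by
  have h1 : ∀ y, (T⁻¹ * S) y - y = T⁻¹ (S y - T y) := by
    intro y
    rw [map_sub]
    congr 1
    exact (T.symm_apply_apply y).symm
  have h2 : ‖Pool.H590R3.Ab.op (T⁻¹ * S) - 1‖ = ‖toOp S - toOp T‖ := by
    have e1 : Pool.H590R3.Ab.op (T⁻¹ * S) - 1 =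
        Pool.H590R3.Ab.op T⁻¹ * (toOp S - toOp T) := by
      ext y
      exact h1 y
    rw [e1, Pool.Agent.U559.CP.norm_op_mul]
  refine ⟨?_, h2, ?_, fun y => ?_⟩
  · intro h3
    rw [h3, Pool.H590R3.Ab.op_one, sub_self, norm_zero] at h2
    rw [← h2, mul_zero] at h
    exact absurd h (not_lt.2 (norm_nonneg _))
  · intro W hW ε hε
    obtain ⟨x, hx, hx1, hx2⟩ := hK W hW ε hε
    exact ⟨x, hx, hx1, by rw [(T⁻¹).norm_map]; exact hx2⟩
  · rw [h1, ← map_sub, (T⁻¹).norm_map, h2]
    exact ((toOp S - toOp T - K).le_opNorm y).trans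
      (mul_le_mul_of_nonneg_right h.le (norm_nonneg y))

/-- **The isometry group of a separable infinite-dimensional transitive space which is not a Hilbert space
embeds bi-Lipschitz in the bounded operators modulo the strictly singular ones.** -/
theorem result :
    (∀ (E : Type) [NormedAddCommGroup E] [NormedSpace ℝ E] [CompleteSpace E]
      [TopologicalSpace.SeparableSpace E], ¬ FiniteDimensional ℝ E → IsTransitive E →
      (¬ IsHilbert E ↔ ∃ c : ℝ, 0 < c ∧ ∀ (S T : E ≃ₗᵢ[ℝ] E) (K : E →L[ℝ] E),
        StrictlySingular K → c * ‖toOp S - toOp T‖ ≤ ‖toOp S - toOp T - K‖)) ∧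
    (∀ (E : Type) [NormedAddCommGroup E] [NormedSpace ℝ E] [CompleteSpace E],
      ¬ FiniteDimensional ℝ E → IsAlmostTransitive E →
      (¬ IsHilbert E ↔ ∃ c : ℝ, 0 < c ∧ ∀ (S T : E ≃ₗᵢ[ℝ] E) (K : E →L[ℝ] E),
        ‖toOp S - toOp T‖ ≤ c → StrictlySingular K →
          c * ‖toOp S - toOp T‖ ≤ ‖toOp S - toOp T - K‖)) := by
  -- in Hilbert spaces the inequalities are false
  have hilb : ∀ (E : Type) [NormedAddCommGroup E] [NormedSpace ℝ E] [CompleteSpace E],
      ¬ FiniteDimensional ℝ E → IsHilbert E → ∀ c : ℝ, 0 < c →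
      ∃ (S T : E ≃ₗᵢ[ℝ] E) (K : E →L[ℝ] E), ‖toOp S - toOp T‖ ≤ c ∧ StrictlySingular K ∧
        ‖toOp S - toOp T - K‖ < c * ‖toOp S - toOp T‖ := by
    rintro E _ _ _ hE ⟨H, _, _, _, ⟨Φ⟩⟩ c hc
    obtain ⟨T, hT1, hT2, hT3⟩ := Pool.Agent.U559.CP.hil_small Φ hE hc
    have hcp : IsCompactOperator (toOp T - toOp 1 : E →L[ℝ] E) := hT2
    refine ⟨T, 1, toOp T - toOp 1, ContinuousLinearMap.opNorm_le_bound _ hc.le (fun z => hT3 z),
      Pool.Agent.U559.CQ.ss_of_cpt hcp, ?_⟩
    rw [sub_self, norm_zero]
    refine mul_pos hc (norm_pos_iff.2 fun h0 => hT1 ?_)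
    ext z
    exact sub_eq_zero.1 (DFunLike.congr_fun h0 z)
  refine ⟨?_, ?_⟩
  · intro E _ _ _ _ hE htr
    constructor
    · intro hH
      by_contra hcon
      push Not at hcon
      refine hH (isHilbert_of (Pool.Agent.U559.CQ.paral_sep hE htr fun ε hε => ?_))
      obtain ⟨S, T, K, hK, h⟩ := hcon ε hε
      obtain ⟨h1, _, h3, h4⟩ := quot hK h
      exact ⟨T⁻¹ * S, fun y => T⁻¹ (K y), h1, h3, h4⟩
    · rintro ⟨c, hc, h⟩ hH
      obtain ⟨S, T, K, _, hK, hlt⟩ := hilb E hE hH c hc
      exact absurd (h S T K hK) (not_le.2 hlt)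
  · intro E _ _ _ hE hat
    constructor
    · intro hH
      by_contra hcon
      push Not at hcon
      refine hH (isHilbert_of (Pool.Agent.U559.CQ.paral_any hE hat fun ε hε => ?_))
      obtain ⟨S, T, K, hST, hK, h⟩ := hcon ε hε
      obtain ⟨h1, h2, h3, h4⟩ := quot hK h
      exact ⟨T⁻¹ * S, fun y => T⁻¹ (K y), h1, by rw [h2]; exact hST, h3, h4⟩
    · rintro ⟨c, hc, h⟩ hH
      obtain ⟨S, T, K, hST, hK, hlt⟩ := hilb E hE hH c hc
      exact absurd (h S T K hST hK) (not_le.2 hlt)

end Pool.Agent.Results.MP_cc72b1_an.CalkinEmbedding
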