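import Pool.Agent.U590.RT.Conv

/-!
# Banach-Mazur rotation problem: norms with a radial positive definite function

Let `E` be an infinite-dimensional real Banach space whose isometry group has dense orbits on the
unit sphere, with a non-constant function `φ`, continuous at `0`, such that `φ ‖x - y‖` is positive
definite (for instance an isometric subspace of `L_q`, `0 < q ≤ 2`). Then `‖x - y‖ ^ p` is of
negative type for every `p` such that `E` has Rademacher type `r` for all `r < p`, in particular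
for `p = 1`; and `E` is isometric to a Hilbert space if and only if it has type `r` for all `r < 2`.

Proof outline (files `Pool/Agent/U590/RT/*`).

1. `Gns.lean`, `Rep.lean`: the Hilbert space of the kernel `φ ‖x - y‖`, vectors `ξ x`, with unitary
   translations `τ a` and unitary `π T` for the linear isometries `T`; the element of minimal norm
   of the closed convex hull of an orbit of `π` is fixed.
2. `Aver.lean`: let `P` be the projection onto the fixed vectors. On the fixed vectors
   `A v = P (τ a v)` depends only on `‖a‖` and is self-adjoint, hence `‖A ^ n ξ 0‖` is log-convex;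
   `A ^ n (ξ 0)` is in the closed convex hull of the sign averages of `ξ (∑ ± y i)`, `‖y i‖ = ‖a‖`.
3. `Key.lean`: if `E` has type `p` and `‖a‖ = θ n ^ (-1 / p)`, then `ζ = A ^ n (ξ 0)` has norm at
   least `1 / 2`, so `τ b ζ` is almost `ζ`, up to `O (1 / n)`, for `‖b‖ ≤ 2 ‖a‖`, but not for one
   fixed `‖b‖`. The function `f ‖b‖ = ‖τ b ζ - ζ‖ ^ 2 / (2 ‖ζ‖ ^ 2)` is of negative type.
4. `Core.lean`: integration of `f (s t) s ^ (-β - 1)` over long windows of `s`, `β < p`, gives the
   inequality for `t ^ β`, as the boundary terms are negligible.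
5. `Fin.lean`, `Conv.lean`: `β → p`, the parallelogram law from negative type `2`, subspaces of
   `L_q`. `Amen.lean`: for amenable isometry groups the function `φ` is an average.
-/

set_option autoImplicit false

open MeasureTheory Filter Topology
open scoped ENNReal

namespace Pool.Agent.Results.MP_cc72b1_an.PositiveDefiniteNorms

/-- almost transitive norm: dense orbits of the linear isometries on the unit sphere -/
def AlmostTransitive (E : Type) [NormedAddCommGroup E] [NormedSpace ℝ E] : Prop :=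
  ∀ x y : E, ‖x‖ = 1 → ‖y‖ = 1 → ∀ ε : ℝ, 0 < ε → ∃ T : E ≃ₗᵢ[ℝ] E, ‖T x - y‖ < ε

/-- `E` is linearly isometric to a Hilbert space -/
def IsHilbert (E : Type) [NormedAddCommGroup E] [NormedSpace ℝ E] : Prop :=
  ∃ (H : Type) (_ : NormedAddCommGroup H) (_ : InnerProductSpace ℝ H) (_ : CompleteSpace H),
    Nonempty (E ≃ₗᵢ[ℝ] H)

/-- for a non-constant function `φ` on `[0, ∞)`, continuous at `0`, the kernel `φ ‖x - y‖` is
positive definite on `E` -/
def PositiveDefiniteNorm (E : Type) [NormedAddCommGroup E] : Prop :=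
  ∃ φ : ℝ → ℝ,
    (∀ (n : ℕ) (x : Fin n → E) (c : Fin n → ℝ), 0 ≤ ∑ i, ∑ j, c i * c j * φ ‖x i - x j‖) ∧
    Tendsto φ (𝓝[>] 0) (𝓝 (φ 0)) ∧ ∃ s : ℝ, 0 < s ∧ φ s ≠ φ 0

/-- the kernel `‖x - y‖ ^ p` is of negative type -/
def NegativeType (E : Type) [NormedAddCommGroup E] (p : ℝ) : Prop :=
  ∀ (n : ℕ) (x : Fin n → E) (c : Fin n → ℝ), ∑ i, c i = 0 →
    ∑ i, ∑ j, c i * c j * ‖x i - x j‖ ^ p ≤ 0

/-- Rademacher type `r` -/
def RademacherType (E : Type) [NormedAddCommGroup E] [NormedSpace ℝ E] (r : ℝ) : Prop :=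
  ∃ C : ℝ, ∀ (n : ℕ) (x : Fin n → E),
    (∑ ε : Fin n → Bool, ‖∑ i, (if ε i then x i else -x i)‖) / 2 ^ n ≤
      C * (∑ i, ‖x i‖ ^ r) ^ (1 / r)

/-- `E` is isometric to a subspace of `L_q (μ)` for some `0 < q ≤ 2` -/
def SubspaceOfLq (E : Type) [NormedAddCommGroup E] [NormedSpace ℝ E] : Prop :=
  ∃ (Ω : Type) (_ : MeasurableSpace Ω) (μ : Measure Ω) (q : ℝ≥0∞) (J : E →ₗ[ℝ] Lp ℝ q μ),
    q ≠ 0 ∧ q ≤ 2 ∧ ∀ u, ‖J u‖ = ‖u‖

/-- bounded functions on the isometry group with `sup_T |F (T S) - F T| → 0` as `S → 1` in the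
strong operator topology (`S.trans T` is the composition `T S`) -/
def UniformlyContinuousFun (E : Type) [NormedAddCommGroup E] [NormedSpace ℝ E]
    (F : (E ≃ₗᵢ[ℝ] E) → ℝ) : Prop :=
  (∃ C : ℝ, ∀ T, |F T| ≤ C) ∧
    ∀ ε : ℝ, 0 < ε → ∃ (Z : Finset E) (δ : ℝ), 0 < δ ∧ ∀ T S : E ≃ₗᵢ[ℝ] E,
      (∀ z ∈ Z, ‖S z - z‖ ≤ δ) → |F (S.trans T) - F T| ≤ ε

/-- the isometry group is amenable in the strong operator topology -/
def AmenableIsometries (E : Type) [NormedAddCommGroup E] [NormedSpace ℝ E] : Prop :=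
  ∃ M : ((E ≃ₗᵢ[ℝ] E) → ℝ) → ℝ,
    (∀ F F', UniformlyContinuousFun E F → UniformlyContinuousFun E F' →
      M (fun T => F T + F' T) = M F + M F') ∧
    (∀ (r : ℝ) F, UniformlyContinuousFun E F → M (fun T => r * F T) = r * M F) ∧
    (∀ F, UniformlyContinuousFun E F → (∀ T, 0 ≤ F T) → 0 ≤ M F) ∧
    M (fun _ => 1) = 1 ∧
    ∀ (S : E ≃ₗᵢ[ℝ] E) F, UniformlyContinuousFun E F → M (fun T => F (S.trans T)) = M F

/-- a uniformly continuous map into a Hilbert space which does not collapse some scale `s` -/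
def UniformMap (E : Type) [NormedAddCommGroup E] : Prop :=
  ∃ (H : Type) (_ : NormedAddCommGroup H) (_ : InnerProductSpace ℝ H) (F : E → H) (s c : ℝ),
    UniformContinuous F ∧ 0 < s ∧ 0 < c ∧ ∀ x y : E, ‖x - y‖ = s → c ≤ ‖F x - F y‖

/-- Let `E` be an infinite-dimensional real normed space with almost transitive norm.
(1) If `φ ‖x - y‖` is positive definite for a non-constant `φ` continuous at `0`, then
`‖x - y‖ ^ p` is of negative type for each `p > 0` such that `E` has type `r` for all `r < p`; in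
particular `‖x - y‖` is of negative type. (2) If `E` is complete, it is isometric to a Hilbert space
if and only if there is such a `φ` and `E` has type `r` for all `r < 2`. (3) There is such a `φ` if
`E` is isometric to a subspace of `L_q`, `0 < q ≤ 2`, or if the isometry group of `E` is amenable
and `E` has a uniformly continuous map into a Hilbert space not collapsing some scale. -/
theorem result :
    ∀ (E : Type) [NormedAddCommGroup E] [NormedSpace ℝ E],
      ¬ FiniteDimensional ℝ E → AlmostTransitive E →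
      (PositiveDefiniteNorm E →
        (∀ p : ℝ, 0 < p → (∀ r : ℝ, 0 < r → r < p → RademacherType E r) → NegativeType E p) ∧
          NegativeType E 1) ∧
      (CompleteSpace E →
        (IsHilbert E ↔
          PositiveDefiniteNorm E ∧ ∀ r : ℝ, 0 < r → r < 2 → RademacherType E r)) ∧
      (SubspaceOfLq E ∨ (AmenableIsometries E ∧ UniformMap E) → PositiveDefiniteNorm E) := by
  intro E _ _ hinf hE
  have hr := Pool.Agent.U590.RT.rank_gt hinf
  refine ⟨fun h => ⟨fun p hp hT => ?_, ?_⟩, fun hc => ⟨?_, ?_⟩, ?_⟩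
  · exact Pool.Agent.U590.RT.negType_of_type h hE hr hp hT
  · exact Pool.Agent.U590.RT.negType_one h hE hr
  · rintro ⟨H, i1, i2, i3, ⟨Φ⟩⟩
    refine ⟨?_, fun r h0 h2 => ?_⟩
    · exact Pool.Agent.U590.RT.hasPD_of_neg two_pos
        (Pool.Agent.U590.RT.neg_of_equiv Φ Pool.Agent.U590.RT.neg_hilbert)
    · exact Pool.Agent.U590.RT.type_of_equiv Φ (Pool.Agent.U590.RT.hilbert_type h0 h2)
  · rintro ⟨h, hT⟩
    haveI := hc
    exact Pool.Agent.U590.RT.hilbert
      (Pool.Agent.U590.RT.negType_of_type h hE hr two_pos hT)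
  · rintro (⟨Ω, i1, μ, q, J, hq0, hq2, hJ⟩ | ⟨hA, H, i1, i2, F, s, c, hF, hs, hc, hsep⟩)
    · obtain ⟨h1, h2⟩ := Pool.Agent.U590.RT.neg_Lq hq0 hq2 J hJ
      exact Pool.Agent.U590.RT.hasPD_of_neg h1 h2
    · exact Pool.Agent.U590.RT.hasPD_of_amenable hE hr hA F hF hs hc hsep

end Pool.Agent.Results.MP_cc72b1_an.PositiveDefiniteNorms
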