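import Pool.Agent.U234.KM.Fin
import Pool.Agent.U234.KM.Asp

/-!
# Banach-Mazur rotation problem: Kalton's property (M)

A Banach space `E` has property (M) if for all weakly null sequences `u n` the asymptotic behaviour of
`‖x + u n‖` depends only on the norm of `x`, not on its direction: `‖x + u n‖ - ‖y + u n‖ → 0` if
`‖x‖ = ‖y‖`.  It may depend on the sequence `u n` in any way.  (Kalton: it holds, for instance, if the
compact operators on `E` are an M-ideal in the bounded operators; the spaces `ℓ p` and the Orlicz and
modular sequence spaces with suitable norms, their subspaces and quotients have it.)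

Theorem.  Let `E` be a separable infinite-dimensional real Banach space with transitive norm.  Then `E` is
isometric to a Hilbert space if and only if its dual is separable (for instance, `E` is reflexive) and `E`
has property (M).

Some assumption as that on the dual is needed in such a theorem, for property (M) says nothing if all weakly
null sequences converge in norm, as in `ℓ 1`.

The starting result `AsympAdditive` is the case in which `‖x + u n‖` is asymptotically a function of `‖x‖`
and `‖u n‖`, of the additive form `Ph⁻¹ (Ph ‖x‖ + Ph ‖u n‖)`; `OpialCriterion` needs that `E` is nearly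
Hilbertian, and `TwoSidedEstimates` needs one exponent `p` for all sequences.  Nothing of this kind is
assumed here.

Proof outline (files `Pool/Agent/U234/KM/*`).

0. `Asp`: if the dual is separable, then by Baire the norm is, for each `ε`, `ε`-smooth at some point, hence
   by transitivity uniformly smooth on the sphere.  So the dual is uniformly convex, and by Milman-Pettis it
   is reflexive, and so is `E`.

1. `Ultra`, `PM`: let `X` be the ultrapower of `E`.  The weak limit is a projection `X → E`, and by
   property (M) the summand `E` of `X` is isotropic: for `ξ` in the kernel `W` of the projection the norm of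
   `e + ξ` depends only on `‖e‖` and `ξ`.  Let `s` be the reflection at `E`, and let `T` be a sequence of
   isometries of `E`, which acts on `X`; `U = s T s T⁻¹` is an isometry of `X`.
2. `Star` (a variant of the starting file `W687/RotIso1`, smooth functional calculus): let `x` be a unit
   vector and `u n` a weakly null sequence of unit vectors, and let `T n` move `x` to the direction of
   `x + t (u n)`, with `t` small.  Either `(U + U⁻¹) / 2` has approximate eigenvectors in `E` with
   eigenvalues `cos θ`, `θ > 0` arbitrarily small, or for some `t` it has a fixed vector `y₁ ≠ 0` in `E`.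
3. In the first case powers of `U` are almost rotations by `π / 4` in almost Euclidean planes spanned by
   `w ∈ E` and `v ∈ W`.  `Par`: for `y ∈ E` the function `m (a) = ‖y + a w‖ ^ 2` satisfies
   `‖y + a w + c v‖ ^ 2 = c ^ 2 + m (a)`; applying the rotation and the isotropy at four points gives
   `m (a) + m (- a) = 2 ‖y‖ ^ 2 + 2 a ^ 2`.  As `w` can be moved to every unit vector of `E` by isometries
   and `y ∈ E` is arbitrary, this is the parallelogram law.
4. In the second case let `A` and `B` be the weak limits of `T n` and of its inverses.  Then `B A` fixes
   `y₁`, and `‖B A x‖ < ‖x‖` by the Kadec-Klee property (a Baire category argument, starting file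
   `H755R2/MT/Slice`).  `Semi`: the weak limits of isometries form a compact semigroup, so by the theorem of
   Ellis and Numakura it contains an idempotent `Q` with `Q y₁ = y₁` and `‖Q x‖ < ‖x‖`.  By property (M) the
   range of `Q` is an isotropic summand of `E`, and the starting result `IsotropicSummand` applies.
-/

set_option autoImplicit false

namespace Pool.Agent.Results.MP_cc72b1_an.PropertyM

open Filter Topology

/-- `E` is linearly isometric to a Hilbert space -/
def IsHilbert (E : Type) [NormedAddCommGroup E] [NormedSpace ℝ E] : Prop :=
  ∃ (H : Type) (_ : NormedAddCommGroup H) (_ : InnerProductSpace ℝ H) (_ : CompleteSpace H),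
    Nonempty (E ≃ₗᵢ[ℝ] H)

/-- the isometry group of `E` is transitive on the unit sphere -/
def IsTransitive (E : Type) [NormedAddCommGroup E] [NormedSpace ℝ E] : Prop :=
  ∀ x y : E, ‖x‖ = 1 → ‖y‖ = 1 → ∃ T : E ≃ₗᵢ[ℝ] E, T x = y

/-- the dual of `E` is separable in its norm -/
def HasSeparableDual (E : Type) [NormedAddCommGroup E] [NormedSpace ℝ E] : Prop :=
  TopologicalSpace.SeparableSpace (StrongDual ℝ E)

/-- Kalton's property (M): for weakly null sequences `u n` the asymptotic behaviour of `‖x + u n‖`
depends only on the norm of `x` -/
def PropertyM (E : Type) [NormedAddCommGroup E] [NormedSpace ℝ E] : Prop :=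
  ∀ u : ℕ → E, (∀ f : StrongDual ℝ E, Tendsto (fun n => f (u n)) atTop (𝓝 0)) →
    ∀ x y : E, ‖x‖ = ‖y‖ → Tendsto (fun n => ‖x + u n‖ - ‖y + u n‖) atTop (𝓝 0)

/-- **A separable infinite-dimensional space with transitive norm is a Hilbert space if and only if its
dual is separable and it has property (M).** -/
theorem result :
    ∀ (E : Type) [NormedAddCommGroup E] [NormedSpace ℝ E] [CompleteSpace E]
      [TopologicalSpace.SeparableSpace E],
      ¬ FiniteDimensional ℝ E → IsTransitive E →
      (IsHilbert E ↔ HasSeparableDual E ∧ PropertyM E) := by
  intro E _ _ _ _ hinf htr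
  constructor
  · rintro ⟨H, _, _, _, ⟨Φ⟩⟩
    exact ⟨Pool.Agent.U234.KM.sep_dual_of_hilbert Φ, Pool.Agent.U234.KM.pm_of_hilbert Φ⟩
  · rintro ⟨hd, hM⟩
    have hd' : TopologicalSpace.SeparableSpace (StrongDual ℝ E) := hd
    exact Pool.Agent.U234.KM.hilbert_of_pm
      (Pool.Agent.U234.KM.reflexive_of_sep_dual htr) hM hinf htr

end Pool.Agent.Results.MP_cc72b1_an.PropertyM
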