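import Pool.Agent.Results.MP_cc72b1_an.CalkinEmbedding
import Pool.Agent.Results.MP_cc72b1_an.NormSeparableGroups

/-!
# Banach-Mazur rotation problem: transitive groups with separable image in the Calkin algebra

Theorem.  Let `E` be a separable infinite-dimensional real Banach space, and let a group `G` of surjective
linear isometries act transitively on the unit sphere.  If the image of `G` in the Calkin algebra of `E` is
separable for the norm, then `E` is isomorphic to a Hilbert space; and if moreover `G` is amenable modulo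
compact operators (for example, amenable as a discrete group), then `E` is isometric to a Hilbert space.

The starting result `NormSeparableGroups` has the same conclusions under the assumption that `G` itself is
separable for the operator norm.  Proof: if `E` is not a Hilbert space, then by `CalkinEmbedding` the group of
isometries embeds bi-Lipschitz in the Calkin algebra, so `G` is separable for the operator norm.
-/

set_option autoImplicit false

namespace Pool.Agent.Results.MP_cc72b1_an.SeparableInCalkin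

open TopologicalSpace Pool.Agent.H821.Rot

/-- `T` as a bounded operator -/
noncomputable def toOp {E : Type} [NormedAddCommGroup E] [NormedSpace ℝ E] (T : E ≃ₗᵢ[ℝ] E) :
    E →L[ℝ] E := (T.toContinuousLinearEquiv : E →L[ℝ] E)

/-- the image of `G` in the Calkin algebra (bounded modulo compact operators) is separable: countably many
operators approximate the elements of `G` modulo compact operators -/
def SeparableModCompact {E : Type} [NormedAddCommGroup E] [NormedSpace ℝ E]
    (G : Subgroup (E ≃ₗᵢ[ℝ] E)) : Prop :=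
  ∃ C : Set (E →L[ℝ] E), C.Countable ∧ ∀ S ∈ G, ∀ ε : ℝ, 0 < ε →
    ∃ A ∈ C, ∃ K : E →L[ℝ] E, IsCompactOperator K ∧ ‖toOp S - A - K‖ < ε

lemma sep_of {E : Type} [NormedAddCommGroup E] [NormedSpace ℝ E] [CompleteSpace E]
    {G : Subgroup (E ≃ₗᵢ[ℝ] E)} (hG : SeparableModCompact G) {c : ℝ} (hc : 0 < c)
    (h : ∀ (S T : E ≃ₗᵢ[ℝ] E) (K : E →L[ℝ] E), CalkinEmbedding.StrictlySingular K →
      c * ‖CalkinEmbedding.toOp S - CalkinEmbedding.toOp T‖ ≤
        ‖CalkinEmbedding.toOp S - CalkinEmbedding.toOp T - K‖) :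
    IsSeparable (ops (G : Set (E ≃ₗᵢ[ℝ] E))) := by
  classical
  obtain ⟨C, hC, hCG⟩ := hG
  let P : (E →L[ℝ] E) × ℕ → (E ≃ₗᵢ[ℝ] E) → Prop := fun p S => S ∈ G ∧
    ∃ K : E →L[ℝ] E, IsCompactOperator K ∧ ‖toOp S - p.1 - K‖ < 1 / ((p.2 : ℝ) + 1)
  let s : (E →L[ℝ] E) × ℕ → (E ≃ₗᵢ[ℝ] E) := fun p => if hp : ∃ S, P p S then hp.choose else 1
  have hs : ∀ p, (∃ S, P p S) → P p (s p) := by
    intro p hp
    show P p (if hp : ∃ S, P p S then hp.choose else 1)
    rw [dif_pos hp]
    exact hp.choose_spec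
  refine ⟨(fun p => toOp (s p)) '' (C ×ˢ (Set.univ : Set ℕ)),
    (hC.prod Set.countable_univ).image _, ?_⟩
  rintro _ ⟨S, hS, rfl⟩
  rw [Metric.mem_closure_iff]
  intro ε hε
  obtain ⟨n, hn⟩ := exists_nat_gt (2 / (c * ε))
  obtain ⟨A, hA, K, hK, hSA⟩ := hCG S hS (1 / ((n : ℝ) + 1)) (by positivity)
  obtain ⟨_, K', hK', hSA'⟩ := hs (A, n) ⟨S, hS, K, hK, hSA⟩
  refine ⟨toOp (s (A, n)), ⟨(A, n), ⟨hA, Set.mem_univ _⟩, rfl⟩, ?_⟩
  have h1 := h S (s (A, n)) (K - K') (Pool.Agent.U559.CQ.ss_of_cpt (hK.sub hK'))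
  have h2 : ‖toOp S - toOp (s (A, n)) - (K - K')‖ < 2 / ((n : ℝ) + 1) := by
    have e : toOp S - toOp (s (A, n)) - (K - K') =
        (toOp S - A - K) - (toOp (s (A, n)) - A - K') := by abel
    rw [e]
    refine (norm_sub_le _ _).trans_lt ?_
    have h3 : (2 : ℝ) / ((n : ℝ) + 1) = 1 / ((n : ℝ) + 1) + 1 / ((n : ℝ) + 1) := by ring
    rw [h3]
    exact add_lt_add hSA hSA'
  have h3 : c * ‖toOp S - toOp (s (A, n))‖ < c * ε := by
    refine (h1.trans_lt h2).trans ?_
    rw [div_lt_iff₀ (by positivity)]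
    rw [div_lt_iff₀ (by positivity)] at hn
    nlinarith [mul_pos hc hε]
  rw [dist_eq_norm]
  exact lt_of_mul_lt_mul_left h3 hc.le

/-- **Transitive groups with separable image in the Calkin algebra.** -/
theorem result :
    ∀ (E : Type) [NormedAddCommGroup E] [NormedSpace ℝ E] [CompleteSpace E] [SeparableSpace E],
      ¬ FiniteDimensional ℝ E → ∀ G : Subgroup (E ≃ₗᵢ[ℝ] E),
      (∀ x y : E, ‖x‖ = 1 → ‖y‖ = 1 → ∃ T ∈ G, T x = y) → SeparableModCompact G →
        (∃ (H : Type) (_ : NormedAddCommGroup H) (_ : InnerProductSpace ℝ H)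
          (_ : CompleteSpace H), Nonempty (E ≃L[ℝ] H)) ∧
        (AmenableModCompact G →
          ∃ (H : Type) (_ : NormedAddCommGroup H) (_ : InnerProductSpace ℝ H)
            (_ : CompleteSpace H), Nonempty (E ≃ₗᵢ[ℝ] H)) := by
  intro E _ _ _ _ hE G htr hG
  by_cases hH : CalkinEmbedding.IsHilbert E
  · obtain ⟨H, i1, i2, i3, ⟨Φ⟩⟩ := hH
    exact ⟨⟨H, i1, i2, i3, ⟨Φ.toContinuousLinearEquiv⟩⟩, fun _ => ⟨H, i1, i2, i3, ⟨Φ⟩⟩⟩
  · obtain ⟨c, hc, h⟩ := (CalkinEmbedding.result.1 E hE (fun x y hx hy => by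
      obtain ⟨T, _, hT⟩ := htr x y hx hy
      exact ⟨T, hT⟩)).1 hH
    have h1 := (NormSeparableGroups.result E).1 G (sep_of hG hc h) htr
    exact ⟨h1.1, h1.2 hE⟩

end Pool.Agent.Results.MP_cc72b1_an.SeparableInCalkin
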